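import Pool.Agent.H20.Chordal

set_option autoImplicit false

namespace Pool.Agent.Results.MP_77abd0_co.RealRoots
open Finset Polynomial
open scoped Classical

/-- every cycle of length at least 4 has a chord -/
def Chordal {V : Type} (G : SimpleGraph V) : Prop :=
  ∀ (v : V) (c : G.Walk v v), c.IsCycle → 4 ≤ c.length → ∃ e, c.IsChord e

/-- at least `l + 1` vertices, and connected after deleting fewer than `l` vertices -/
def LConnected {V : Type} [Fintype V] (G : SimpleGraph V) (l : ℕ) : Prop :=
  l + 1 ≤ Fintype.card V ∧ ∀ S : Finset V, S.card < l → (G.induce (S : Set V)ᶜ).Connected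

/-- the clique polynomial: each clique (the empty one included) contributes `x ^ size` -/
noncomputable def cliquePoly {V : Type} [Fintype V] (G : SimpleGraph V) : ℝ[X] :=
  ∑ T ∈ univ.filter fun T : Finset V => G.IsClique (T : Set V), X ^ T.card

def R {V : Type} (G : SimpleGraph V) (Y : Finset V) : V → V → Prop :=
  Relation.ReflTransGen fun x y => G.Adj x y ∧ x ∈ Y ∧ y ∈ Y

theorem form {V : Type} (G : SimpleGraph V) (hG : Chordal G) (l : ℕ) (hK : G.CliqueFree (l + 3))
    (z : ℂ) (Y : Finset V) : l + 1 ≤ Y.card →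
    (∀ S : Finset V, S.card < l → ∀ a ∈ Y \ S, ∀ b ∈ Y \ S, R G (Y \ S) a b) →
    ∃ a b : ℕ, ∑ T ∈ Y.powerset, (if G.IsClique (T : Set V) then z ^ T.card else 0) =
      (1 + z) ^ l * (b * z ^ 2 + (a + b + 1) * z + 1) := by
  induction Y using Finset.strongInduction with
  | H Y ih =>
    intro hY hc
    obtain ⟨r, hr, hs⟩ := Pool.Agent.H20.Chordal.simplicial G
      (fun v c h1 h2 h => (hG v c h1 h2).elim fun _ he => h he) Y (card_pos.1 (by omega))
    set N := Y.filter (G.Adj r) with hN
    have hNc : G.IsClique (N : Set V) := fun a ha b hb h =>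
      hs a (mem_filter.1 ha).1 b (mem_filter.1 hb).1 (mem_filter.1 ha).2 (mem_filter.1 hb).2 h
    have hrN : r ∉ N := by simp [hN]
    have hNY : N ⊆ Y.erase r := fun a ha =>
      mem_erase.2 ⟨(mem_filter.1 ha).2.ne', (mem_filter.1 ha).1⟩
    have hce := card_erase_of_mem hr
    have h1 : l ≤ N.card := by
      by_contra h
      obtain ⟨y, h2, h3⟩ := exists_mem_notMem_of_card_lt_card (s := N) (t := Y.erase r) (by omega)
      rcases (hc N (by omega) r (mem_sdiff.2 ⟨hr, hrN⟩) y
        (mem_sdiff.2 ⟨mem_of_mem_erase h2, h3⟩)).cases_head with e | ⟨w, ⟨h4, -, h5⟩, -⟩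
      · exact (mem_erase.1 h2).1 e.symm
      · exact (mem_sdiff.1 h5).2 (mem_filter.2 ⟨(mem_sdiff.1 h5).1, h4⟩)
    have h2 : N.card ≤ l + 1 := by
      by_contra h
      obtain ⟨T, h3, h4⟩ := exists_subset_card_eq (s := insert r N) (n := l + 3)
        (by rw [card_insert_of_notMem hrN]; omega)
      refine hK T ⟨SimpleGraph.IsClique.subset (coe_subset.2 h3) ?_, h4⟩
      rw [coe_insert]
      exact hNc.insert fun b hb _ => (mem_filter.1 hb).2
    have hb : ∑ T ∈ N.powerset, z ^ T.card = (1 + z) ^ N.card := by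
      rw [← prod_const (1 + z), prod_one_add]; simp
    have h3 : ∑ T ∈ Y.powerset, (if G.IsClique (T : Set V) then z ^ T.card else 0) =
        ∑ T ∈ (Y.erase r).powerset, (if G.IsClique (T : Set V) then z ^ T.card else 0) +
          z * (1 + z) ^ N.card := by
      conv_lhs => rw [← insert_erase hr]
      rw [sum_powerset_insert (notMem_erase r Y), ← hb, mul_sum]
      congr 1
      rw [← sum_subset (powerset_mono.2 hNY)]
      · refine sum_congr rfl fun T hT => ?_
        have h4 := mem_powerset.1 hT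
        rw [if_pos, card_insert_of_notMem (fun h => hrN (h4 h)), pow_succ']
        rw [coe_insert]
        exact (hNc.subset (coe_subset.2 h4)).insert fun b hb _ => (mem_filter.1 (h4 hb)).2
      · intro T h4 h5
        refine if_neg fun h => h5 (mem_powerset.2 fun a ha => ?_)
        have h6 := mem_erase.1 (mem_powerset.1 h4 ha)
        exact mem_filter.2 ⟨h6.2, h (by simp) (by simp [ha]) h6.1.symm⟩
    rw [h3]
    rcases hY.eq_or_lt with h4 | h4
    · have h5 : N = Y.erase r := eq_of_subset_of_card_le hNY (by omega)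
      refine ⟨0, 0, ?_⟩
      rw [← h5, sum_congr rfl fun T hT => if_pos (hNc.subset (coe_subset.2 (mem_powerset.1 hT))),
        hb, show N.card = l by have := card_le_card hNY; omega]
      push_cast
      ring
    · obtain ⟨a, b, h5⟩ := ih _ (erase_ssubset hr) (by omega) (by
        intro S hS a ha b hb
        have hsub : ∀ x, x ∈ Y.erase r \ S ↔ x ∈ Y \ S ∧ x ≠ r := by
          intro x; simp only [mem_sdiff, mem_erase]; tauto
        have key : ∀ c, R G (Y \ S) a c → (c ≠ r → R G (Y.erase r \ S) a c) ∧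
            (c = r → ∃ d ∈ Y.erase r \ S, G.Adj r d ∧ R G (Y.erase r \ S) a d) := by
          intro c h
          induction h with
          | refl => exact ⟨fun _ => .refl, fun e => absurd e ((hsub a).1 ha).2⟩
          | @tail b c _ h ih =>
            by_cases e : b = r
            · obtain ⟨d, d1, d2, d3⟩ := ih.2 e
              refine ⟨fun hc => ?_, fun hc => absurd (e.trans hc.symm) h.1.ne⟩
              by_cases e' : d = c
              · exact e' ▸ d3
              · exact d3.tail ⟨hs d (mem_sdiff.1 ((hsub d).1 d1).1).1 c (mem_sdiff.1 h.2.2).1 d2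
                  (e ▸ h.1) e', d1, (hsub c).2 ⟨h.2.2, hc⟩⟩
            · exact ⟨fun hc => (ih.1 e).tail ⟨h.1, (hsub b).2 ⟨h.2.1, e⟩, (hsub c).2 ⟨h.2.2, hc⟩⟩,
                fun hc => ⟨b, (hsub b).2 ⟨h.2.1, e⟩, hc ▸ h.1.symm, ih.1 e⟩⟩
        exact (key b (hc S hS a ((hsub a).1 ha).1 b ((hsub b).1 hb).1)).1 ((hsub b).1 hb).2)
      rw [h5]
      rcases h1.eq_or_lt with h6 | h6
      · refine ⟨a + 1, b, ?_⟩
        rw [← h6]; push_cast; ring
      · refine ⟨a, b + 1, ?_⟩
        rw [show N.card = l + 1 by omega]; push_cast; ring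

theorem result (V : Type) [Fintype V] (G : SimpleGraph V) (l : ℕ) (h1 : LConnected G l)
    (h2 : Chordal G) (h3 : G.CliqueFree (l + 3)) (z : ℂ) (hz : aeval z (cliquePoly G) = 0) :
    z.im = 0 := by
  obtain ⟨a, b, h⟩ := form G h2 l h3 z univ h1.1 (by
    intro S hS a ha b hb
    have := (SimpleGraph.reachable_iff_reflTransGen _ _).1
      ((h1.2 S hS).preconnected ⟨a, (mem_sdiff.1 ha).2⟩ ⟨b, (mem_sdiff.1 hb).2⟩)
    exact this.lift Subtype.val fun x y h =>
      ⟨h, mem_sdiff.2 ⟨mem_univ _, x.2⟩, mem_sdiff.2 ⟨mem_univ _, y.2⟩⟩)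
  simp only [cliquePoly, map_sum, map_pow, aeval_X] at hz
  rw [sum_filter] at hz
  rw [powerset_univ, hz, eq_comm, mul_eq_zero] at h
  rcases h with h | h
  · have := congrArg Complex.im (pow_eq_zero_iff' |>.1 h).1
    simpa using this
  · by_contra hv
    have e1 := congrArg Complex.re h
    have e2 := congrArg Complex.im h
    simp [pow_two] at e1 e2
    have ha : (0 : ℝ) ≤ a := by positivity
    have hb : (0 : ℝ) ≤ b := by positivity
    have e3 : 2 * b * z.re = -(a + b + 1) := mul_right_cancel₀ hv (by linarith)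
    have hb0 : (b : ℝ) ≠ 0 := fun e => by rw [e] at e3; linarith
    have e4 : 0 < (b * z.im) ^ 2 := by positivity
    have e5 : (a + b + 1 : ℝ) ^ 2 - 4 * b + 4 * (b * z.im) ^ 2 = 0 := by
      linear_combination (-4 * b) * e1 + (2 * b * z.re + (a + b + 1)) * e3
    nlinarith [sq_nonneg ((b : ℝ) - 1), mul_nonneg ha hb]

end Pool.Agent.Results.MP_77abd0_co.RealRoots
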